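import Mathlib
import Pool.Agent.Helper50_PN.Stmts

/-!
# Squad PN: module VER
-/

set_option autoImplicit false

universe u v w

open MvPolynomial

namespace Pool.Agent.PN.H65

section deg

variable {V : Type*} {R : Type*} [CommSemiring R] (w : V → ℕ)

theorem deg_zero (d : ℕ) : Deg w d (0 : MvPolynomial V R) := by
  intro s hs
  simp at hs

theorem deg_mono {d d' : ℕ} (h : d ≤ d') {P : MvPolynomial V R} (hP : Deg w d P) : Deg w d' P :=
  fun s hs => (hP s hs).trans h

theorem deg_add {d : ℕ} {P Q : MvPolynomial V R} (hP : Deg w d P) (hQ : Deg w d Q) :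
    Deg w d (P + Q) := by
  classical
  intro s hs
  have h := support_add hs
  rw [Finset.mem_union] at h
  rcases h with h | h
  · exact hP s h
  · exact hQ s h

theorem deg_sum {ι : Type*} (t : Finset ι) (f : ι → MvPolynomial V R) {d : ℕ}
    (h : ∀ i ∈ t, Deg w d (f i)) : Deg w d (∑ i ∈ t, f i) := by
  classical
  induction t using Finset.induction_on with
  | empty => simpa using deg_zero w d
  | insert a t ha ih =>
    rw [Finset.sum_insert ha]
    exact deg_add w (h a (Finset.mem_insert_self a t))
      (ih fun i hi => h i (Finset.mem_insert_of_mem hi))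

theorem wt_add (s t : V →₀ ℕ) : (s + t).sum (fun v e => e * w v) =
    s.sum (fun v e => e * w v) + t.sum (fun v e => e * w v) := by
  classical
  exact Finsupp.sum_add_index' (fun v => zero_mul _) (fun v a b => add_mul a b _)

theorem deg_mul {d e : ℕ} {P Q : MvPolynomial V R} (hP : Deg w d P) (hQ : Deg w e Q) :
    Deg w (d + e) (P * Q) := by
  classical
  intro s hs
  have h := support_mul P Q hs
  rw [Finset.mem_add] at h
  obtain ⟨a, ha, b, hb, rfl⟩ := h
  rw [wt_add]
  exact Nat.add_le_add (hP a ha) (hQ b hb)

theorem deg_C (c : R) : Deg w 0 (C c : MvPolynomial V R) := by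
  classical
  intro s hs
  rw [mem_support_iff, coeff_C] at hs
  have h : (0 : V →₀ ℕ) = s := by
    by_contra h
    exact hs (if_neg h)
  rw [← h]
  simp

theorem deg_X (v : V) : Deg w (w v) (X v : MvPolynomial V R) := by
  classical
  intro s hs
  rw [mem_support_iff, coeff_X] at hs
  have h : Finsupp.single v 1 = s := by
    by_contra h
    exact hs (if_neg h)
  rw [← h, Finsupp.sum_single_index (zero_mul _), one_mul]

theorem deg_one : Deg w 0 (1 : MvPolynomial V R) := by
  have h := deg_C w (1 : R)
  rwa [C_1] at h

theorem deg_pow {d : ℕ} {P : MvPolynomial V R} (hP : Deg w d P) (n : ℕ) :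
    Deg w (n * d) (P ^ n) := by
  induction n with
  | zero => simpa using deg_one w
  | succ n ih =>
    rw [pow_succ, add_mul, one_mul]
    exact deg_mul w ih hP

theorem deg_prod {ι : Type*} (t : Finset ι) (f : ι → MvPolynomial V R) (d : ι → ℕ)
    (h : ∀ i ∈ t, Deg w (d i) (f i)) : Deg w (∑ i ∈ t, d i) (∏ i ∈ t, f i) := by
  classical
  induction t using Finset.induction_on with
  | empty => simpa using deg_one w
  | insert a t ha ih =>
    rw [Finset.prod_insert ha, Finset.sum_insert ha]
    exact deg_mul w (h a (Finset.mem_insert_self a t))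
      (ih fun i hi => h i (Finset.mem_insert_of_mem hi))

end deg

/-- the Taylor expansion does not raise the weight -/
theorem deg_taylor {V E : Type*} [Field E] (w : V → ℕ) (p : V → E) {m : ℕ} {P : MvPolynomial V ℤ}
    (hP : Deg w m P) : Deg w m (taylor p P) := by
  classical
  have h1 : taylor p P = ∑ s ∈ P.support, C ((coeff s P : ℤ) : E) *
      ∏ v ∈ s.support, (C (p v) + X v) ^ s v := by
    rw [taylor, aeval_def, eval₂_eq]
    refine Finset.sum_congr rfl fun s _ => ?_
    congr 1
  rw [h1]
  refine deg_sum w _ _ fun s hs => ?_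
  refine deg_mono w (hP s hs) ?_
  have h2 := deg_mul w (deg_C w ((coeff s P : ℤ) : E))
    (deg_prod w s.support (fun v => (C (p v) + X v : MvPolynomial V E) ^ s v)
      (fun v => s v * w v) fun v _ => deg_pow w (deg_add w
        (deg_mono w (bot_le) (deg_C w (p v))) (deg_X w v)) (s v))
  rw [zero_add] at h2
  exact h2

theorem eval_taylor {V E : Type*} [Field E] (p q : V → E) (P : MvPolynomial V ℤ) :
    eval (fun v => q v - p v) (taylor p P) = aeval q P := by
  have h : ((eval (fun v => q v - p v)).comp (taylor p).toRingHom) =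
      (aeval q : MvPolynomial V ℤ →ₐ[ℤ] E).toRingHom := by
    refine ringHom_ext (fun r => ?_) (fun v => ?_)
    · simp [taylor]
    · simp [taylor]
  exact RingHom.congr_fun h P

/-- VER -/
theorem ver : VerStmt.{u} := by
  intro E _ n N k m P hP p q hy hx hs
  rw [← eval_taylor p q P, eval_eq]
  refine Finset.sum_eq_zero fun s hs' => ?_
  have h1 : m < s.degree := by
    by_contra h
    push Not at h
    exact (mem_support_iff.1 hs') (hs s h)
  have h2 := deg_taylor (ww n N k) p hP s hs'
  have h3 : ∃ v ∈ s.support, ww n N k v = 0 := by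
    by_contra h
    push Not at h
    have h4 : s.degree ≤ s.sum (fun v e => e * ww n N k v) := by
      rw [Finsupp.degree_apply, Finsupp.sum]
      refine Finset.sum_le_sum fun v hv => ?_
      exact Nat.le_mul_of_pos_right _ (Nat.pos_of_ne_zero (h v hv))
    omega
  obtain ⟨v, hv, hv0⟩ := h3
  have h5 : q v - p v = 0 := by
    rcases v with y | ⟨l, t⟩
    · rw [hy y, sub_self]
    · have ht : (t : ℕ) = 0 := by simpa [ww] using hv0
      have ht' : t = 0 := Fin.ext (by simpa using ht)
      rw [ht', hx l, sub_self]
  rw [Finset.prod_eq_zero hv, mul_zero]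
  rw [h5, zero_pow (Finsupp.mem_support_iff.1 hv)]

end Pool.Agent.PN.H65
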